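import Pool.Agent.Helper82.EN.Basic

set_option autoImplicit false

/-!
# ENCODING BY TM, module RC: counting relations between seed words via locality
-/

namespace Pool.Agent.Helper82.EN

open Finset

namespace Pa

variable (P : Pa) {Q : Type} (M : Mc Q)

/-- extension of a finite content by blanks -/
def rc_ext {n : ℕ} (f : Fin n → Tp) (z : ℤ) : Tp :=
  if h : 0 ≤ z ∧ z < n then f ⟨z.toNat, by omega⟩ else none

theorem rc_ext_eq {n : ℕ} (f : Fin n → Tp) (g : ℤ → Tp) (a z : ℤ)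
    (hf : ∀ i : Fin n, f i = g (a + (i : ℕ))) (h0 : 0 ≤ z) (h1 : z < n) :
    rc_ext f z = g (a + z) := by
  unfold rc_ext
  rw [dif_pos ⟨h0, h1⟩, hf]
  congr 1
  simp [Int.toNat_of_nonneg h0]

/-- configuration given by its state and the content of the window -/
def rc_cfg (x : Q × (Fin (P.D + 2 * P.kap) → Tp)) : Cf Q :=
  ⟨x.1, P.kap, rc_ext x.2⟩

/-- configuration given by its state, the content of the margins, and the content of the middle -/
def rc_cfg2 (x : Q × (Fin P.kap → Tp) × (Fin P.kap → Tp)) (C : Fin P.D → Tp) : Cf Q :=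
  ⟨x.1, P.kap, fun z => if z < P.kap then rc_ext x.2.1 z else if z < P.kap + P.D then
    rc_ext C (z - P.kap) else rc_ext x.2.2 (z - P.kap - P.D)⟩

/-- printed word -/
def rc_v (c : Cf Q) : Fin P.D → Fin 5 := fun i => M.out (M.run c i)

/-- decoding a letter -/
def rc_de (z : Fin 5) : Fin 3 := ⟨(z.1 + 1) % 3, Nat.mod_lt _ (by norm_num)⟩

theorem rc_de_em (a : Fin 3) : rc_de (em a) = a := by
  revert a
  decide

/-- the seed word determined by a rotation of it -/
def rc_un (v : Fin P.D → Fin 5) (j : Fin P.D) : P.Wd :=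
  fun y => rc_de (v ⟨(y + (P.D - j)) % P.D, Nat.mod_lt _ y.pos⟩)

theorem rc_rot {a : P.Wd} {v : Fin P.D → Fin 5} (hD : 1 ≤ P.D) (h : P.Rot a v) :
    ∃ j : Fin P.D, a = P.rc_un v j := by
  obtain ⟨j, hj⟩ := h
  refine ⟨⟨j % P.D, Nat.mod_lt _ hD⟩, ?_⟩
  funext y
  unfold rc_un
  rw [hj, rc_de_em]
  congr 1
  ext
  simp only
  rw [Nat.mod_add_mod]
  have h1 : j % P.D < P.D := Nat.mod_lt _ hD
  have h2 : (y : ℕ) + (P.D - j % P.D) + j = y + P.D * (1 + j / P.D) := by
    have h3 := Nat.div_add_mod j P.D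
    have h4 : P.D * (1 + j / P.D) = P.D + P.D * (j / P.D) := by ring
    omega
  rw [h2, Nat.add_mul_mod_self_left, Nat.mod_eq_of_lt y.2]

theorem rc_ini {a : P.Wd} {C : Fin P.D → Tp} (hD : 1 ≤ P.D) (h : P.Ini a C) :
    ∃ j : Fin P.D, C = fun x : Fin P.D => some (em (a ⟨(x + j) % P.D, Nat.mod_lt _ x.pos⟩)) := by
  obtain ⟨j, hj⟩ := h
  refine ⟨⟨j % P.D, Nat.mod_lt _ hD⟩, ?_⟩
  funext x
  rw [hj]
  simp only [Nat.add_mod_mod]

/-- simulation in the window -/
theorem rc_sim {c c' : Cf Q} {k : ℕ} (hq : c'.q = c.q) (hp : c'.p = P.kap)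
    (hT : ∀ z : ℤ, 0 ≤ z → z < P.D + 2 * P.kap → c'.T z = c.T (c.p - P.kap + z))
    (hW : P.Win M c k) :
    P.Win M c' k ∧ (∀ t ≤ k, (M.run c' t).p = (M.run c t).p + (P.kap - c.p)) ∧
      (∀ t < k, M.out (M.run c' t) = M.out (M.run c t)) ∧
      ∀ z : ℤ, 0 ≤ z → z < P.D + 2 * P.kap →
        (M.run c' k).T z = (M.run c k).T (c.p - P.kap + z) := by
  have hp' : c'.p = c.p + (P.kap - c.p) := by rw [hp]; ring
  have hT' : ∀ z, c.p - P.kap ≤ z → z < c.p + P.D + P.kap →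
      c'.T (z + (P.kap - c.p)) = c.T z := by
    intro z h1 h2
    rw [hT _ (by linarith) (by linarith)]
    congr 1
    ring
  have h1 : ∀ t ≤ k, (M.run c' t).q = (M.run c t).q ∧
      (M.run c' t).p = (M.run c t).p + (P.kap - c.p) ∧
      ∀ z, c.p - P.kap ≤ z → z < c.p + P.D + P.kap →
        (M.run c' t).T (z + (P.kap - c.p)) = (M.run c t).T z :=
    fun t ht => loc M hq hp' hT' t fun u hu => hW u (by omega)
  refine ⟨?_, fun t ht => (h1 t ht).2.1, fun t ht => loc_out M hq hp' hT' k hW t ht, ?_⟩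
  · intro t ht
    rw [(h1 t ht.le).2.1, hp]
    have := hW t ht
    constructor <;> linarith [this.1, this.2]
  · intro z h2 h3
    have := (h1 k le_rfl).2.2 (c.p - P.kap + z) (by linarith) (by linarith)
    rw [← this]
    congr 1
    ring

/-- the content left behind, as a function of the data -/
noncomputable def rc_cont (x : Q × (Fin (P.D + 2 * P.kap) → Tp)) : Fin P.D → Tp := by
  classical
  exact if h : ∃ t₁ : ℕ, P.Win M (P.rc_cfg x) t₁ ∧
      (M.run (P.rc_cfg x) t₁).p = P.kap + P.D + P.kap then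
    fun i => (M.run (P.rc_cfg x) h.choose).T (P.kap + (i : ℕ))
  else fun _ => none

theorem rc_laid {a : P.Wd} {C : Fin P.D → Tp} (hD : 1 ≤ P.D) (h : P.Laid M a C) :
    ∃ (x : Q × (Fin (P.D + 2 * P.kap) → Tp)) (j : Fin P.D),
      a = P.rc_un (P.rc_v M (P.rc_cfg x)) j ∧ C = P.rc_cont M x := by
  obtain ⟨c, t₁, ht, hW, hp, hr, hC⟩ := h
  set x : Q × (Fin (P.D + 2 * P.kap) → Tp) := (c.q, fun i => c.T (c.p - P.kap + (i : ℕ))) with hx
  obtain ⟨s1, s2, s3, s4⟩ := P.rc_sim M (c := c) (c' := P.rc_cfg x) rfl rfl (by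
    intro z h0 h1
    exact rc_ext_eq x.2 c.T (c.p - P.kap) z (fun i => rfl) h0 (by push_cast; linarith)) hW
  obtain ⟨j, hj⟩ := P.rc_rot hD hr
  refine ⟨x, j, ?_, ?_⟩
  · rw [hj]
    congr 1
    funext i
    exact (s3 i (lt_of_lt_of_le i.2 ht)).symm
  · have hex : ∃ t₁ : ℕ, P.Win M (P.rc_cfg x) t₁ ∧
        (M.run (P.rc_cfg x) t₁).p = P.kap + P.D + P.kap := by
      refine ⟨t₁, s1, ?_⟩
      rw [s2 t₁ le_rfl, hp]
      ring
    have huniq : hex.choose = t₁ := by
      have h1 := hex.choose_spec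
      have h2 : (M.run (P.rc_cfg x) t₁).p = P.kap + P.D + P.kap := by
        rw [s2 t₁ le_rfl, hp]
        ring
      rcases lt_trichotomy hex.choose t₁ with h3 | h3 | h3
      · have h4 := (s1 _ h3).2
        rw [h1.2] at h4
        have h5 : (P.rc_cfg x).p = P.kap := rfl
        rw [h5] at h4
        exact absurd h4 (lt_irrefl _)
      · exact h3
      · have h4 := (h1.1 _ h3).2
        rw [h2] at h4
        have h5 : (P.rc_cfg x).p = P.kap := rfl
        rw [h5] at h4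
        exact absurd h4 (lt_irrefl _)
    funext i
    unfold rc_cont
    rw [dif_pos hex, huniq, hC]
    have h6 := s4 (P.kap + (i : ℕ)) (by positivity) (by
      have := i.2
      have : ((i : ℕ) : ℤ) < P.D := by exact_mod_cast i.2
      linarith)
    rw [h6]
    congr 1
    ring

/-- the printed word is a function of the state, the content of the margins and of the middle -/
theorem rc_mid {c : Cf Q} {w : P.Wd} (hD : 1 ≤ P.D) (hW : P.Win M c P.D)
    (hr : P.Rot w (fun x => M.out (M.run c x))) :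
    ∃ (x : Q × (Fin P.kap → Tp) × (Fin P.kap → Tp)) (j : Fin P.D),
      w = P.rc_un (P.rc_v M (P.rc_cfg2 x (fun i => c.T (c.p + (i : ℕ))))) j := by
  set x : Q × (Fin P.kap → Tp) × (Fin P.kap → Tp) :=
    (c.q, (fun i => c.T (c.p - P.kap + (i : ℕ))), fun i => c.T (c.p + P.D + (i : ℕ))) with hx
  set C : Fin P.D → Tp := fun i => c.T (c.p + (i : ℕ)) with hC
  obtain ⟨s1, s2, s3, s4⟩ := P.rc_sim M (c := c) (c' := P.rc_cfg2 x C) rfl rfl (by
    intro z h0 h1
    show (if z < P.kap then rc_ext x.2.1 z else if z < P.kap + P.D then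
      rc_ext C (z - P.kap) else rc_ext x.2.2 (z - P.kap - P.D)) = c.T (c.p - P.kap + z)
    split_ifs with h2 h3
    · exact rc_ext_eq x.2.1 c.T (c.p - P.kap) z (fun i => rfl) h0 h2
    · rw [rc_ext_eq C c.T c.p (z - P.kap) (fun i => rfl) (by linarith) (by linarith)]
      congr 1
      ring
    · rw [rc_ext_eq x.2.2 c.T (c.p + P.D) (z - P.kap - P.D) (fun i => rfl) (by linarith)
        (by linarith)]
      congr 1
      ring) hW
  obtain ⟨j, hj⟩ := P.rc_rot hD hr
  refine ⟨x, j, ?_⟩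
  rw [hj]
  congr 1
  funext i
  exact (s3 i i.2).symm

/-- the pairs (seed word, content) of the first kind and of the second kind -/
noncomputable def rc_src : ((Q × (Fin (P.D + 2 * P.kap) → Tp)) × Fin P.D) ⊕ (P.Wd × Fin P.D) →
    P.Wd × (Fin P.D → Tp)
  | Sum.inl y => (P.rc_un (P.rc_v M.mir (P.rc_cfg y.1)) y.2,
      fun i => P.rc_cont M.mir y.1 (Fin.rev i))
  | Sum.inr y => (y.1, fun x : Fin P.D => some (em (y.1 ⟨(x + y.2) % P.D, Nat.mod_lt _ x.pos⟩)))

/-- all pairs in the relation `Rel1` -/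
noncomputable def rc_all (y : (((Q × (Fin (P.D + 2 * P.kap) → Tp)) × Fin P.D) ⊕ (P.Wd × Fin P.D)) ×
    ((Q × (Fin P.kap → Tp) × (Fin P.kap → Tp)) × Fin P.D)) : P.Wd × P.Wd :=
  ((P.rc_src M y.1).1, P.rc_un (P.rc_v M (P.rc_cfg2 y.2.1 (P.rc_src M y.1).2)) y.2.2)

theorem rc_rel1 {a w : P.Wd} (hD : 1 ≤ P.D) (h : P.Rel1 M a w) : ∃ y, P.rc_all M y = (a, w) := by
  obtain ⟨c, hW, hr, hc⟩ := h
  obtain ⟨x, j, hx⟩ := P.rc_mid M hD hW hr
  have h1 : ∃ s, P.rc_src M s = (a, fun i : Fin P.D => c.T (c.p + (i : ℕ))) := by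
    rcases hc with hc | hc
    · obtain ⟨j', hj'⟩ := P.rc_ini hD hc
      exact ⟨Sum.inr (a, j'), by rw [hj']; rfl⟩
    · obtain ⟨x', j', h2, h3⟩ := P.rc_laid M.mir hD hc
      refine ⟨Sum.inl (x', j'), ?_⟩
      unfold rc_src
      simp only
      rw [← h2, ← h3]
      refine Prod.ext rfl ?_
      funext i
      simp only [Fin.val_rev]
      congr 1
      have := i.2
      push_cast [Nat.cast_sub (show (i : ℕ) + 1 ≤ P.D by omega)]
      ring
  obtain ⟨s, hs⟩ := h1
  refine ⟨(s, (x, j)), ?_⟩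
  unfold rc_all
  rw [hs]
  exact Prod.ext rfl hx.symm

/-- all words which can be printed over a blank -/
noncomputable def rc_blk (y : (Q × (Fin P.kap → Tp) × (Fin P.kap → Tp)) × Fin P.D) : P.Wd :=
  P.rc_un (P.rc_v M (P.rc_cfg2 y.1 (fun _ => none))) y.2

theorem rc_blk1 {w : P.Wd} (hD : 1 ≤ P.D) (h : P.Blk1 M w) : ∃ y, P.rc_blk M y = w := by
  obtain ⟨c, hW, hr, hc⟩ := h
  obtain ⟨x, j, hx⟩ := P.rc_mid M hD hW hr
  refine ⟨(x, j), ?_⟩
  unfold rc_blk
  rw [hx]
  congr 3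
  funext i
  exact (hc i).symm

theorem rc_card_tp (n : ℕ) : Fintype.card (Fin n → Tp) = 6 ^ n := by
  simp

theorem rc_card_rel1 [Fintype Q] {K : ℕ} (hK : Fintype.card Q ≤ K) (hK1 : 1 ≤ K) (hD : 1 ≤ P.D)
    (s : Finset (P.Wd × P.Wd)) (hs : ∀ x ∈ s, P.Rel1 M x.1 x.2) :
    s.card ≤ 2 * K ^ 2 * P.D ^ 2 * 6 ^ (P.D + 4 * P.kap) := by
  classical
  have h1 : s ⊆ univ.image (P.rc_all M) := by
    intro x hx
    obtain ⟨y, hy⟩ := P.rc_rel1 M hD (hs x hx)
    exact mem_image.2 ⟨y, mem_univ _, hy⟩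
  refine (card_le_card h1).trans (card_image_le.trans ?_)
  rw [card_univ]
  simp only [Fintype.card_prod, Fintype.card_sum, rc_card_tp, Fintype.card_fin,
    Fintype.card_pi, prod_const, card_univ]
  have e1 : 3 ^ P.D ≤ K * 6 ^ (P.D + 2 * P.kap) := by
    calc 3 ^ P.D ≤ 6 ^ P.D := Nat.pow_le_pow_left (by norm_num) _
      _ ≤ 6 ^ (P.D + 2 * P.kap) := Nat.pow_le_pow_right (by norm_num) (by omega)
      _ ≤ K * 6 ^ (P.D + 2 * P.kap) := Nat.le_mul_of_pos_left _ hK1
  have e2 : Fintype.card Q * 6 ^ (P.D + 2 * P.kap) ≤ K * 6 ^ (P.D + 2 * P.kap) :=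
    Nat.mul_le_mul_right _ hK
  have e3 : Fintype.card Q * (6 ^ P.kap * 6 ^ P.kap) ≤ K * 6 ^ (2 * P.kap) := by
    rw [← pow_add, ← two_mul]
    exact Nat.mul_le_mul_right _ hK
  calc (Fintype.card Q * 6 ^ (P.D + 2 * P.kap) * P.D + 3 ^ P.D * P.D) *
        (Fintype.card Q * (6 ^ P.kap * 6 ^ P.kap) * P.D)
      ≤ (K * 6 ^ (P.D + 2 * P.kap) * P.D + K * 6 ^ (P.D + 2 * P.kap) * P.D) *
        (K * 6 ^ (2 * P.kap) * P.D) := by gcongr
    _ = 2 * K ^ 2 * P.D ^ 2 * (6 ^ (P.D + 2 * P.kap) * 6 ^ (2 * P.kap)) := by ring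
    _ = 2 * K ^ 2 * P.D ^ 2 * 6 ^ (P.D + 4 * P.kap) := by
        rw [← pow_add]
        congr 2
        ring

theorem rc_card_blk1 [Fintype Q] {K : ℕ} (hK : Fintype.card Q ≤ K) (hD : 1 ≤ P.D)
    (s : Finset P.Wd) (hs : ∀ x ∈ s, P.Blk1 M x) :
    s.card ≤ K * P.D * 6 ^ (2 * P.kap) := by
  classical
  have h1 : s ⊆ univ.image (P.rc_blk M) := by
    intro x hx
    obtain ⟨y, hy⟩ := P.rc_blk1 M hD (hs x hx)
    exact mem_image.2 ⟨y, mem_univ _, hy⟩
  refine (card_le_card h1).trans (card_image_le.trans ?_)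
  rw [card_univ]
  simp only [Fintype.card_prod, rc_card_tp, Fintype.card_fin]
  calc Fintype.card Q * (6 ^ P.kap * 6 ^ P.kap) * P.D
      ≤ K * (6 ^ P.kap * 6 ^ P.kap) * P.D := by gcongr
    _ = K * P.D * 6 ^ (2 * P.kap) := by
        rw [two_mul, pow_add]
        ring

end Pa

theorem st_RC : ST_RC := by
  classical
  intro Q _ P M K hK hK1 hD
  constructor
  · have h1 : (univ.filter fun x : P.Wd × P.Wd => P.Rel M x.1 x.2) ⊆
        (univ.filter fun x : P.Wd × P.Wd => P.Rel1 M x.1 x.2) ∪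
        (univ.filter fun x : P.Wd × P.Wd => P.Rel1 M.mir x.1 x.2) := by
      intro x hx
      simp only [mem_filter, mem_univ, true_and, mem_union] at hx ⊢
      exact hx
    have h2 := P.rc_card_rel1 M hK hK1 hD
      (univ.filter fun x : P.Wd × P.Wd => P.Rel1 M x.1 x.2) (by
        intro x hx
        exact (mem_filter.1 hx).2)
    have h3 := P.rc_card_rel1 M.mir hK hK1 hD
      (univ.filter fun x : P.Wd × P.Wd => P.Rel1 M.mir x.1 x.2) (by
        intro x hx
        exact (mem_filter.1 hx).2)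
    refine (card_le_card h1).trans ((card_union_le _ _).trans ((add_le_add h2 h3).trans
      (le_of_eq ?_)))
    ring
  · have h1 : (univ.filter fun x : P.Wd => P.Blk M x) ⊆
        (univ.filter fun x : P.Wd => P.Blk1 M x) ∪
        (univ.filter fun x : P.Wd => P.Blk1 M.mir x) := by
      intro x hx
      simp only [mem_filter, mem_univ, true_and, mem_union] at hx ⊢
      exact hx
    have h2 := P.rc_card_blk1 M hK hD
      (univ.filter fun x : P.Wd => P.Blk1 M x) (by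
        intro x hx
        exact (mem_filter.1 hx).2)
    have h3 := P.rc_card_blk1 M.mir hK hD
      (univ.filter fun x : P.Wd => P.Blk1 M.mir x) (by
        intro x hx
        exact (mem_filter.1 hx).2)
    refine (card_le_card h1).trans ((card_union_le _ _).trans ((add_le_add h2 h3).trans
      (le_of_eq ?_)))
    ring

end Pool.Agent.Helper82.EN
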